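import Pool.Agent.Helper96.DivChain.General

/-!
# Chains of division subalgebras have logarithmic length

Let `Q` be a division `K`-algebra containing a `K`-algebra `A` of Gelfand-Kirillov dimension less
than `d` and let `V ⊆ A` be a finite-dimensional subspace containing `1`.  If
`D_0 ⊇ D_1 ⊇ … ⊇ D_L` are division subalgebras of `Q` and each `D_j \ D_(j+1)` contains the value of a
rational expression in `A` of weight at most `k`, then `L ≤ 2 d log_2 k + C`, where `C` does not depend
on `k`, `L` and the chain.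
-/

open Module

namespace Pool.Agent.Results.MP_7a070a_al.ChainTheorem

open Pool.Agent.Helper7.DivSub Pool.Agent.Helper96.DivChain

theorem result
    {K A Q : Type*} [Field K] [Ring A] [Algebra K A] [DivisionRing Q] [Algebra K Q]
    (ι : A →ₐ[K] Q) (hι : Function.Injective ι)
    (V : Submodule K A) [FiniteDimensional K V] (h1 : (1 : A) ∈ V)
    (d : ℝ) (hgk : GKdim K A < (d : EReal)) :
    ∃ C : ℝ, ∀ (k L : ℕ) (D : ℕ → Subfield Q) (e : ℕ → Q), 1 ≤ k →
      (∀ x : K, algebraMap K Q x ∈ D L) → (∀ j < L, D (j + 1) ≤ D j) →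
      (∀ j < L, e j ∈ D j ∧ e j ∉ D (j + 1) ∧ ∃ n ≤ k, Weight ι V n (e j)) →
      (L : ℝ) ≤ 2 * d * Real.logb 2 k + C :=
  general ι hι V h1 d hgk

end Pool.Agent.Results.MP_7a070a_al.ChainTheorem
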