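import Pool.Agent.Helper41.CT.FinLen
import Pool.Agent.Helper96.DivChain.Chain

/-!
# Division subalgebras isomorphic to the quotient division algebra: finite length

Let `A` be a finitely generated `K`-algebra with quotient division algebra `Q` and finite
Gelfand-Kirillov dimension, and let `D ⊆ Q` be a division subalgebra isomorphic to `Q`.  Then every
chain of division rings between `D` and `Q` has length at most `2 GKdim(A) log_2 c`, where `c` is
the number of leaves of rational expressions for the images of the generators under the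
isomorphism `Q → D`.
-/

open Module

namespace Pool.Agent.Results.MP_7a070a_al.FiniteLength

open Pool.Agent.Helper7.DivSub Pool.Agent.Helper41.CT

theorem result
    {K A Q : Type*} [Field K] [Ring A] [Algebra K A] [Algebra.FiniteType K A]
    [DivisionRing Q] [Algebra K Q] (ι : A →ₐ[K] Q) (hι : IsQuotientDivisionAlgebra ι)
    (d : ℝ) (hd : 0 ≤ d) (hgk : GKdim K A ≤ (d : EReal)) :
    (∃ S : Set Q, S.Finite ∧ ∀ q : Q, ∃ n, Cx K S n q) ∧
    ∀ S : Set Q, S.Finite → (∀ q : Q, ∃ n, Cx K S n q) →
      ∀ (D : Subfield Q) (φ : Q ≃+* D),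
        (∀ k : K, (φ (algebraMap K Q k) : Q) = algebraMap K Q k) →
        (∃ c : ℕ, 1 ≤ c ∧ ∀ s ∈ S, ∃ n ≤ c, Cx K S n (φ s : Q)) ∧
        ∀ c : ℕ, 1 ≤ c → (∀ s ∈ S, ∃ n ≤ c, Cx K S n (φ s : Q)) →
          ∀ (r : ℕ) (E : ℕ → Subfield Q), (∀ i < r, E (i + 1) < E i) → D ≤ E r →
            (r : ℝ) ≤ 2 * d * Real.logb 2 c := by
  have hchain : ChainIneq K Q := by
    intro T hT I L δ D e hK hD he he' hI hδ
    exact Pool.Agent.Helper96.DivChain.chain_ineq T I L δ D e hK hD he he' hI hδ
  refine ⟨?_, ?_⟩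
  · obtain ⟨V, hV, h1, hfrac, -⟩ := exists_V ι hι
    obtain ⟨s0, hs0⟩ := (Submodule.fg_iff_finiteDimensional V).2 hV
    exact ⟨(s0 : Set Q), s0.finite_toSet, exists_cx_of_frac V hfrac s0 hs0⟩
  · intro S hSf hSg D φ hφ
    have hc := exists_common (K := K) (S := (fun s : Q => (φ s : Q)) '' S) (S' := S)
      (hSf.image _) (fun s _ => hSg s)
    refine ⟨?_, ?_⟩
    · obtain ⟨κ, hκ⟩ := hc
      refine ⟨κ + 1, by omega, fun s hs => ?_⟩
      obtain ⟨k, hk, h⟩ := hκ _ ⟨s, hs, rfl⟩
      exact ⟨k, by omega, h⟩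
    · intro c hc1 hcS r E hE hDE
      let σ : Q →ₐ[K] Q :=
        { toFun := fun q => (φ q : Q)
          map_one' := by simp
          map_mul' := fun x y => by simp
          map_zero' := by simp
          map_add' := fun x y => by simp
          commutes' := hφ }
      exact finite_length_core hchain ι hι d hd hgk S hSf hSg σ c hc1 hcS r E hE
        (fun q => hDE (φ q).2)

end Pool.Agent.Results.MP_7a070a_al.FiniteLength
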