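import Pool.Agent.Helper7.G3.Final2

/-!
# Q1 for algebras of (lower) Gelfand-Kirillov dimension at most three

Let `A` be a finitely generated `K`-algebra with quotient division algebra `Q` and lower
Gelfand-Kirillov dimension at most `3` (for instance `GKdim A ≤ 3`), and let `D` be a division
subalgebra of `Q` such that `Q` embeds as a `K`-algebra into the matrix algebra `M_m(D)` for some
`m ≥ 1`.  Then `Q` is finite-dimensional as a left `D`-vector space.

* `m = 1`: this is Q1 (division subalgebras `D` isomorphic to `Q`, or containing a copy of `Q`); see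
  `Pool.Agent.Helper7.G3.finite_of_iso`.
* If `Q` is finite-dimensional as a right `D`-vector space then the left multiplications give such an
  embedding; see `Pool.Agent.Helper7.G3.finite_of_right`.
-/

open Module

universe u

namespace Pool.Agent.Results.MP_7a070a_al.GKdimThree

open Pool.Agent.Helper7.DivSub Pool.Agent.Helper7.G3

theorem result
    {K A : Type*} {Q : Type u} [Field K] [Ring A] [Algebra K A] [Algebra.FiniteType K A]
    [DivisionRing Q] [Algebra K Q] (ι : A →ₐ[K] Q) (hι : IsQuotientDivisionAlgebra ι)
    (hgk : lowerGKdim K A ≤ 3)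
    (D : Subfield Q) {m : ℕ} (hm : 0 < m) (φ : Q →+* Matrix (Fin m) (Fin m) D)
    (hφ : ∀ (k : K) (i j : Fin m),
      ((φ (algebraMap K Q k) i j : D) : Q) = if i = j then algebraMap K Q k else 0) :
    Module.Finite D Q :=
  finite_of_matrix ι hι hgk D hm φ hφ

end Pool.Agent.Results.MP_7a070a_al.GKdimThree
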