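import Pool.Agent.Helper7.DivSub.Setup

/-!
# Division subalgebras satisfying a left isoperimetric inequality have finite left index

Let `A` be a finitely generated `K`-algebra with quotient division algebra `Q`, and let `D ⊆ Q` be
any division subalgebra satisfying a left isoperimetric inequality
`dim (L T) ≥ dim T + c (dim T)^(1 - 1/e)` with `e > GKdim A - 1`.  Then `Q` is finite-dimensional as
a left `D`-vector space.
-/

open Module

namespace Pool.Agent.Results.MP_7a070a_al.IsoperimetricIndex

open Pool.Agent.Helper7.DivSub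

theorem result
    {K A Q : Type*} [Field K] [Ring A] [Algebra K A] [Algebra.FiniteType K A]
    [DivisionRing Q] [Algebra K Q] (ι : A →ₐ[K] Q) (hι : IsQuotientDivisionAlgebra ι)
    (D : Subfield Q) (hK : ∀ k : K, algebraMap K Q k ∈ D)
    (L : Submodule K Q) [FiniteDimensional K L] (hLD : ∀ l ∈ L, l ∈ D)
    (e c : ℝ) (he : 0 < e) (hc : 0 < c)
    (hiso : ∀ T : Submodule K Q, FiniteDimensional K T → T ≠ ⊥ → (∀ t ∈ T, t ∈ D) →
      (finrank K T : ℝ) + c * (finrank K T : ℝ) ^ (1 - 1 / e) ≤ finrank K ↥(L * T))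
    (hgk : GKdim K A < ((e + 1 : ℝ) : EReal)) :
    Module.Finite D Q := by
  obtain ⟨V, hV, h1, hfrac, hle⟩ := exists_V ι hι
  exact core D hK V h1 hfrac L hLD e c he hc hiso (hle.trans_lt hgk)

end Pool.Agent.Results.MP_7a070a_al.IsoperimetricIndex
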